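import Pool.Agent.W802.BA.Stms

set_option autoImplicit false

open MeasureTheory Set Filter Topology

namespace Pool.Agent.W61.BA

open Pool.Agent.W779.Morrey Pool.Agent.W802.BA

noncomputable def DP (F : E) : E →L[ℝ] ℝ := a1 F • a1 + a2 F • a2
noncomputable def DQ (F : E) : E →L[ℝ] ℝ := b1 F • b1 + b2 F • b2
noncomputable def KA (F : E) : E →L[ℝ] ℝ := a1 F • a2 - a2 F • a1
noncomputable def KB (F : E) : E →L[ℝ] ℝ := b1 F • b2 - b2 F • b1

noncomputable def DP' : E →L[ℝ] E →L[ℝ] ℝ := a1.smulRight a1 + a2.smulRight a2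
noncomputable def DQ' : E →L[ℝ] E →L[ℝ] ℝ := b1.smulRight b1 + b2.smulRight b2
noncomputable def KA' : E →L[ℝ] E →L[ℝ] ℝ := a1.smulRight a2 - a2.smulRight a1
noncomputable def KB' : E →L[ℝ] E →L[ℝ] ℝ := b1.smulRight b2 - b2.smulRight b1

theorem DP_eq (F : E) : DP F = DP' F := by
  simp [DP, DP']

theorem DQ_eq (F : E) : DQ F = DQ' F := by
  simp [DQ, DQ']

theorem KA_eq (F : E) : KA F = KA' F := by
  simp [KA, KA']

theorem KB_eq (F : E) : KB F = KB' F := by
  simp [KB, KB']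

theorem DP_apply (F G : E) : DP F G = da F G := by
  simp [DP, da]

theorem DQ_apply (F G : E) : DQ F G = db F G := by
  simp [DQ, db]

theorem KA_apply (F G : E) : KA F G = wa F G := by
  simp [KA, wa]

theorem KB_apply (F G : E) : KB F G = wb F G := by
  simp [KB, wb]

theorem hasDP (F : E) : HasFDerivAt DP DP' F := by
  have : DP = fun F => DP' F := funext DP_eq
  rw [this]
  exact DP'.hasFDerivAt

theorem hasDQ (F : E) : HasFDerivAt DQ DQ' F := by
  have : DQ = fun F => DQ' F := funext DQ_eq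
  rw [this]
  exact DQ'.hasFDerivAt

theorem hasKA (F : E) : HasFDerivAt KA KA' F := by
  have : KA = fun F => KA' F := funext KA_eq
  rw [this]
  exact KA'.hasFDerivAt

theorem hasKB (F : E) : HasFDerivAt KB KB' F := by
  have : KB = fun F => KB' F := funext KB_eq
  rw [this]
  exact KB'.hasFDerivAt

theorem contDP {n : WithTop ℕ∞} : ContDiff ℝ n DP := by
  have : DP = fun F => DP' F := funext DP_eq
  rw [this]
  exact DP'.contDiff

theorem contDQ {n : WithTop ℕ∞} : ContDiff ℝ n DQ := by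
  have : DQ = fun F => DQ' F := funext DQ_eq
  rw [this]
  exact DQ'.contDiff

theorem contKA {n : WithTop ℕ∞} : ContDiff ℝ n KA := by
  have : KA = fun F => KA' F := funext KA_eq
  rw [this]
  exact KA'.contDiff

theorem contKB {n : WithTop ℕ∞} : ContDiff ℝ n KB := by
  have : KB = fun F => KB' F := funext KB_eq
  rw [this]
  exact KB'.contDiff

theorem has_quot {A S : E → ℝ} {A' S' : E →L[ℝ] ℝ} {F : E} (hA : HasFDerivAt A A' F)
    (hS : HasFDerivAt S S' F) (h0 : S F ≠ 0) :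
    HasFDerivAt (fun F => A F / S F) ((1 / S F) • A' - (A F / S F ^ 2) • S') F := by
  have h1 : HasFDerivAt (fun F => (S F)⁻¹) (-(S F ^ 2)⁻¹ • S') F :=
    (hasDerivAt_inv h0).comp_hasFDerivAt F hS
  have h2 := hA.mul h1
  have e : (fun F => A F / S F) = fun F => A F * (S F)⁻¹ := by
    funext F
    rw [div_eq_mul_inv]
  rw [e]
  refine h2.congr_fderiv ?_
  ext G
  simp only [_root_.add_apply, _root_.sub_apply, FunLike.coe_smul, Pi.smul_apply, smul_eq_mul]
  field_simp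
  ring

section sg

variable {ε : ℝ} (hε : 0 < ε)
include hε

theorem argP_pos (F : E) : 0 < pP F + ε ^ 2 := by
  unfold pP; positivity

theorem argQ_pos (F : E) : 0 < pQ F + ε ^ 2 := by
  unfold pQ; positivity

theorem sg_pos (F : E) : 0 < sg ε F := Real.sqrt_pos.2 (argP_pos hε F)

theorem tg_pos (F : E) : 0 < tg ε F := Real.sqrt_pos.2 (argQ_pos hε F)

theorem has_sg (F : E) : HasFDerivAt (sg ε) ((1 / sg ε F) • DP F) F := by
  have h1 : HasFDerivAt (fun F : E => a1 F ^ 2 + a2 F ^ 2 + ε ^ 2)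
      ((2 * a1 F) • a1 + (2 * a2 F) • a2) F := by
    have e1 := (a1.hasFDerivAt (x := F)).pow 2
    have e2 := (a2.hasFDerivAt (x := F)).pow 2
    have := (e1.add e2).add_const (ε ^ 2)
    simpa using this
  have h2 := h1.sqrt (argP_pos hε F).ne'
  have e : (1 / (2 * √(a1 F ^ 2 + a2 F ^ 2 + ε ^ 2))) • ((2 * a1 F) • a1 + (2 * a2 F) • a2)
      = (1 / sg ε F) • DP F := by
    have hs : √(a1 F ^ 2 + a2 F ^ 2 + ε ^ 2) = sg ε F := rfl
    rw [hs, DP]
    have hp := (sg_pos hε F).ne'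
    ext G
    simp only [_root_.add_apply, FunLike.coe_smul, Pi.smul_apply, smul_eq_mul]
    field_simp
  rw [e] at h2
  exact h2

theorem has_tg (F : E) : HasFDerivAt (tg ε) ((1 / tg ε F) • DQ F) F := by
  have h1 : HasFDerivAt (fun F : E => b1 F ^ 2 + b2 F ^ 2 + ε ^ 2)
      ((2 * b1 F) • b1 + (2 * b2 F) • b2) F := by
    have e1 := (b1.hasFDerivAt (x := F)).pow 2
    have e2 := (b2.hasFDerivAt (x := F)).pow 2
    have := (e1.add e2).add_const (ε ^ 2)
    simpa using this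
  have h2 := h1.sqrt (argQ_pos hε F).ne'
  have e : (1 / (2 * √(b1 F ^ 2 + b2 F ^ 2 + ε ^ 2))) • ((2 * b1 F) • b1 + (2 * b2 F) • b2)
      = (1 / tg ε F) • DQ F := by
    have hs : √(b1 F ^ 2 + b2 F ^ 2 + ε ^ 2) = tg ε F := rfl
    rw [hs, DQ]
    have hp := (tg_pos hε F).ne'
    ext G
    simp only [_root_.add_apply, FunLike.coe_smul, Pi.smul_apply, smul_eq_mul]
    field_simp
  rw [e] at h2
  exact h2

theorem cont_sg {n : ℕ∞} : ContDiff ℝ n (sg ε) := by
  have h1 : ContDiff ℝ n (fun F : E => pP F + ε ^ 2) := contDiff_pP.add contDiff_const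
  exact h1.sqrt fun F => (argP_pos hε F).ne'

theorem cont_tg {n : ℕ∞} : ContDiff ℝ n (tg ε) := by
  have h1 : ContDiff ℝ n (fun F : E => pQ F + ε ^ 2) := contDiff_pQ.add contDiff_const
  exact h1.sqrt fun F => (argQ_pos hε F).ne'

/-- the derivative of a radial function -/
theorem has_rad {g gs gt : ℝ → ℝ → ℝ}
    (h : ∀ s t : ℝ, 0 < s → 0 < t → HasFDerivAt (fun q : ℝ × ℝ => g q.1 q.2)
      (gs s t • ContinuousLinearMap.fst ℝ ℝ ℝ + gt s t • ContinuousLinearMap.snd ℝ ℝ ℝ) (s, t))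
    (F : E) : HasFDerivAt (fun F => g (sg ε F) (tg ε F))
      ((gs (sg ε F) (tg ε F) / sg ε F) • DP F + (gt (sg ε F) (tg ε F) / tg ε F) • DQ F) F := by
  have h1 := h (sg ε F) (tg ε F) (sg_pos hε F) (tg_pos hε F)
  have h2 : HasFDerivAt (fun F : E => (sg ε F, tg ε F))
      (((1 / sg ε F) • DP F).prod ((1 / tg ε F) • DQ F)) F := (has_sg hε F).prodMk (has_tg hε F)
  have h3 := HasFDerivAt.comp (g := fun q : ℝ × ℝ => g q.1 q.2) F h1 h2
  refine h3.congr_fderiv ?_
  ext G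
  simp only [ContinuousLinearMap.comp_apply, _root_.add_apply, FunLike.coe_smul, Pi.smul_apply,
    smul_eq_mul, ContinuousLinearMap.prod_apply, ContinuousLinearMap.coe_fst',
    ContinuousLinearMap.coe_snd']
  ring

theorem cont_comp {g : ℝ → ℝ → ℝ}
    (h : ContinuousOn (fun q : ℝ × ℝ => g q.1 q.2) (Ioi 0 ×ˢ Ioi 0)) :
    Continuous (fun F => g (sg ε F) (tg ε F)) := by
  have h2 : Continuous (fun F : E => (sg ε F, tg ε F)) :=
    ((cont_sg hε (n := 0)).continuous).prodMk ((cont_tg hε (n := 0)).continuous)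
  exact h.comp_continuous h2 fun F => ⟨sg_pos hε F, tg_pos hε F⟩

theorem cont1 {g gs gt : ℝ → ℝ → ℝ}
    (h : ∀ s t : ℝ, 0 < s → 0 < t → HasFDerivAt (fun q : ℝ × ℝ => g q.1 q.2)
      (gs s t • ContinuousLinearMap.fst ℝ ℝ ℝ + gt s t • ContinuousLinearMap.snd ℝ ℝ ℝ) (s, t))
    (h1 : ContinuousOn (fun q : ℝ × ℝ => gs q.1 q.2) (Ioi 0 ×ˢ Ioi 0))
    (h2 : ContinuousOn (fun q : ℝ × ℝ => gt q.1 q.2) (Ioi 0 ×ˢ Ioi 0)) :
    ContDiff ℝ 1 (fun F => g (sg ε F) (tg ε F)) := by
  rw [contDiff_one_iff_hasFDerivAt]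
  refine ⟨_, ?_, fun F => has_rad hε h F⟩
  have c1 := cont_comp hε h1
  have c2 := cont_comp hε h2
  have c3 := (cont_sg hε (n := 0)).continuous
  have c4 := (cont_tg hε (n := 0)).continuous
  have c5 : Continuous DP := (contDP (n := 0)).continuous
  have c6 : Continuous DQ := (contDQ (n := 0)).continuous
  exact ((c1.div c3 fun F => (sg_pos hε F).ne').smul c5).add
    ((c2.div c4 fun F => (tg_pos hε F).ne').smul c6)

end sg

theorem calc_main : S_Calc := by
  intro f fs ft fss fst ftt α αs αt β βs βt hf hα hβ ε hε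
  -- the gradient
  have hsp := fun F => (sg_pos hε F).ne'
  have htp := fun F => (tg_pos hε F).ne'
  have c1 : ContDiff ℝ 1 (fun F => fs (sg ε F) (tg ε F)) := cont1 hε hf.ds hf.css hf.cst
  have c2 : ContDiff ℝ 1 (fun F => ft (sg ε F) (tg ε F)) := cont1 hε hf.dt hf.cst hf.ctt
  have c3 : ContDiff ℝ 1 (fun F => α (sg ε F) (tg ε F)) := cont1 hε hα.d0 hα.cs hα.ct
  have c4 : ContDiff ℝ 1 (fun F => β (sg ε F) (tg ε F)) := cont1 hε hβ.d0 hβ.cs hβ.ct
  have cs : ContDiff ℝ 1 (sg ε) := cont_sg hε (n := 1)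
  have ct : ContDiff ℝ 1 (tg ε) := cont_tg hε (n := 1)
  have hgrad : ∀ F, HasFDerivAt (Wr f ε)
      ((fs (sg ε F) (tg ε F) / sg ε F) • DP F + (ft (sg ε F) (tg ε F) / tg ε F) • DQ F) F :=
    fun F => has_rad hε hf.d0 F
  have efd : fderiv ℝ (Wr f ε) = fun F =>
      (fs (sg ε F) (tg ε F) / sg ε F) • DP F + (ft (sg ε F) (tg ε F) / tg ε F) • DQ F :=
    funext fun F => (hgrad F).fderiv
  have hθ : ContDiff ℝ 1 (θr α β ε) := (c3.smul contKA).add (c4.smul contKB)
  refine ⟨?_, hθ, ?_⟩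
  · have h2 : (2 : WithTop ℕ∞) = 1 + 1 := by norm_num
    rw [h2, contDiff_succ_iff_fderiv]
    refine ⟨fun F => (hgrad F).differentiableAt, by simp, ?_⟩
    rw [efd]
    exact ((c1.div cs hsp).smul contDP).add ((c2.div ct htp).smul contDQ)
  · intro F G₀ G₁
    have hs0 := hsp F
    have ht0 := htp F
    -- derivative of the gradient
    have dA : HasFDerivAt (fun F => fs (sg ε F) (tg ε F) / sg ε F) _ F :=
      has_quot (has_rad hε hf.ds F) (has_sg hε F) hs0
    have dB : HasFDerivAt (fun F => ft (sg ε F) (tg ε F) / tg ε F) _ F :=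
      has_quot (has_rad hε hf.dt F) (has_tg hε F) ht0
    have d2 := (dA.smul (hasDP F)).add (dB.smul (hasDQ F))
    have e2 : ∀ G, fderiv ℝ (fderiv ℝ (Wr f ε)) F G G
        = H2 fs ft fss fst ftt (sg ε F) (tg ε F) F G := by
      intro G
      have e3 := d2.fderiv
      have e4 : ((fun F => fs (sg ε F) (tg ε F) / sg ε F) • DP
          + (fun F => ft (sg ε F) (tg ε F) / tg ε F) • DQ) = fderiv ℝ (Wr f ε) := by
        rw [efd]
        rfl
      rw [e4] at e3
      rw [e3]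
      have ep : DP' G G = pP G := by
        rw [← DP_eq, DP_apply, da, pP]; ring
      have eq : DQ' G G = pQ G := by
        rw [← DQ_eq, DQ_apply, db, pQ]; ring
      simp only [_root_.add_apply, _root_.sub_apply, FunLike.coe_smul, Pi.smul_apply,
        smul_eq_mul, ContinuousLinearMap.smulRight_apply, DP_apply, DQ_apply, ep, eq]
      rw [H2]
      field_simp
      ring
    have dα := has_rad hε hα.d0 F
    have dβ := has_rad hε hβ.d0 F
    have d3 : HasFDerivAt (θr α β ε) _ F := (dα.smul (hasKA F)).add (dβ.smul (hasKB F))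
    rw [MF, e2, e2, d3.fderiv, J]
    have k1 : KA' G₀ G₁ = wa G₀ G₁ := by rw [← KA_eq, KA_apply]
    have k2 : KA' G₁ G₀ = - wa G₀ G₁ := by rw [← KA_eq, KA_apply, wa, wa]; ring
    have k3 : KB' G₀ G₁ = wb G₀ G₁ := by rw [← KB_eq, KB_apply]
    have k4 : KB' G₁ G₀ = - wb G₀ G₁ := by rw [← KB_eq, KB_apply, wb, wb]; ring
    simp only [_root_.add_apply, FunLike.coe_smul, Pi.smul_apply,
      smul_eq_mul, ContinuousLinearMap.smulRight_apply, DP_apply, DQ_apply, KA_apply, KB_apply,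
      k1, k2, k3, k4]
    rw [T2]
    ring

end Pool.Agent.W61.BA
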