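import Pool.Agent.W314.BA.Stm

/-! MP_f2742c_an, BA-PF: the pair relation on the level of functions. -/

set_option autoImplicit false

open MeasureTheory Set Filter Topology Real
open scoped ENNReal NNReal

namespace Pool.Agent.W61.BA.PF

open Pool.Agent.W745 (NN FR HM kk dg)
open Pool.Agent.W314.BA

noncomputable section

/-! ### Kernels -/

theorem Fs_pos (s : ℕ) {t : ℝ} (ht : 0 ≤ t) : 0 < Fs s t := by
  unfold Fs; positivity

theorem Fs_le (s : ℕ) (hs : 2 ≤ s) {t : ℝ} (ht : 0 ≤ t) : Fs s t ≤ Fs 2 t := by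
  unfold Fs
  have h1 : (1 + t) ^ 2 ≤ (1 + t) ^ s := pow_le_pow_right₀ (by linarith) hs
  have h2 : 0 < (1 + t) ^ 2 := by positivity
  exact inv_anti₀ h2 h1

theorem Fs_meas (s : ℕ) : Measurable (Fs s) := by
  unfold Fs
  exact ((measurable_const.add measurable_id).pow_const s).inv

theorem Fs_cont (s : ℕ) : ContinuousOn (Fs s) (Ici 1) := by
  unfold Fs
  refine ContinuousOn.inv₀ ((continuous_const.add continuous_id).pow s).continuousOn ?_
  intro x hx
  have hx1 : (1 : ℝ) ≤ x := hx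
  have : 0 < (1 + x) ^ s := by positivity
  exact this.ne'

theorem Gs_meas (s : ℕ) : Measurable (Gs s) := by
  unfold Gs
  exact ((Fs_meas (s + 1)).const_mul _).sub ((Fs_meas s).const_mul _)

/-- the constant -/
def cG (s : ℕ) : ℝ := 2 * (s : ℝ) ^ 2 + (s : ℝ) ^ 2

theorem cG_nonneg (s : ℕ) : 0 ≤ cG s := by unfold cG; positivity

theorem Gs_le (s : ℕ) (hs : 2 ≤ s) {t : ℝ} (ht : 0 ≤ t) : |Gs s t| ≤ cG s * Fs 2 t := by
  unfold Gs cG
  have h1 := Fs_le (s + 1) (by omega) ht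
  have h2 := Fs_le s hs ht
  have p1 := Fs_pos (s + 1) ht
  have p2 := Fs_pos s ht
  have p3 := Fs_pos 2 ht
  have hs' : (2 : ℝ) ≤ s := by exact_mod_cast hs
  have h3 : 0 ≤ (s : ℝ) * ((s : ℝ) - 1) := by nlinarith
  have h4 : (s : ℝ) * ((s : ℝ) - 1) ≤ (s : ℝ) ^ 2 := by nlinarith
  have k1 : 2 * (s : ℝ) ^ 2 * Fs (s + 1) t ≤ 2 * (s : ℝ) ^ 2 * Fs 2 t := by gcongr
  have k2 : (s : ℝ) * ((s : ℝ) - 1) * Fs s t ≤ (s : ℝ) ^ 2 * Fs 2 t :=
    mul_le_mul h4 h2 p2.le (by positivity)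
  have k3 : 0 ≤ 2 * (s : ℝ) ^ 2 * Fs (s + 1) t := by positivity
  have k4 : 0 ≤ (s : ℝ) * ((s : ℝ) - 1) * Fs s t := by positivity
  rw [abs_le]
  constructor <;> nlinarith

theorem KF_Fs (s : ℕ) (hs : 2 ≤ s) : KF (Fs s) := by
  refine ⟨Fs_cont s, 1, fun t ht => ?_⟩
  have ht0 : 0 ≤ t := by linarith
  rw [abs_of_pos (Fs_pos s ht0), one_mul]
  exact Fs_le s hs ht0

theorem KF_Gs (s : ℕ) (hs : 2 ≤ s) : KF (Gs s) := by
  refine ⟨?_, cG s, fun t ht => Gs_le s hs (by linarith)⟩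
  unfold Gs
  exact (continuousOn_const.mul (Fs_cont (s + 1))).sub (continuousOn_const.mul (Fs_cont s))

/-! ### The argument of the spherical mean -/

theorem arg_ge {t w X : ℝ} (ht : 1 ≤ t) (htX : t ≤ X) (hw : 1 ≤ w) (a : ℝ) :
    0 ≤ t * w + √(t ^ 2 - 1) * √(w ^ 2 - 1) * Real.cos a ∧
    (1 + w) / (2 * X) ≤ 1 + (t * w + √(t ^ 2 - 1) * √(w ^ 2 - 1) * Real.cos a) := by
  set S := √(t ^ 2 - 1) with hS
  set R := √(w ^ 2 - 1) with hR
  have hS0 : 0 ≤ S := Real.sqrt_nonneg _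
  have hR0 : 0 ≤ R := Real.sqrt_nonneg _
  have hS2 : S ^ 2 = t ^ 2 - 1 := Real.sq_sqrt (by nlinarith)
  have hR2 : R ^ 2 = w ^ 2 - 1 := Real.sq_sqrt (by nlinarith)
  have hSt : S ≤ t := by nlinarith
  have hRw : R ≤ w := by nlinarith
  have hX : 0 < X := by linarith
  have hc := Real.neg_one_le_cos a
  have h1 : -(S * R) ≤ S * R * Real.cos a := by
    have : 0 ≤ S * R := mul_nonneg hS0 hR0
    nlinarith
  have h2 : S * R ≤ S * w := mul_le_mul_of_nonneg_left hRw hS0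
  have h3 : (t - S) * (t + S) = 1 := by nlinarith
  have h4 : t + S ≤ 2 * X := by linarith
  have h5 : 0 ≤ t - S := by linarith
  have h6 : 1 / (2 * X) ≤ t - S := by
    rw [div_le_iff₀ (by positivity)]
    nlinarith
  have h7 : 0 ≤ (t - S) * w := mul_nonneg h5 (by linarith)
  refine ⟨by nlinarith, ?_⟩
  have h8 : 1 / (2 * X) * w ≤ (t - S) * w := mul_le_mul_of_nonneg_right h6 (by linarith)
  have h9 : 1 / (2 * X) ≤ 1 := by
    rw [div_le_one (by positivity)]; linarith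
  have h10 : (1 + w) / (2 * X) = 1 / (2 * X) + 1 / (2 * X) * w := by ring
  rw [h10]
  nlinarith

theorem Fs2_arg {t w X : ℝ} (ht : 1 ≤ t) (htX : t ≤ X) (hw : 1 ≤ w) (a : ℝ) :
    Fs 2 (t * w + √(t ^ 2 - 1) * √(w ^ 2 - 1) * Real.cos a) ≤ (2 * X) ^ 2 * Fs 2 w := by
  obtain ⟨h1, h2⟩ := arg_ge ht htX hw a
  have hX : 0 < X := by linarith
  unfold Fs
  have h3 : 0 < (1 + w) / (2 * X) := by positivity
  have h4 : ((1 + w) / (2 * X)) ^ 2 ≤
      (1 + (t * w + √(t ^ 2 - 1) * √(w ^ 2 - 1) * Real.cos a)) ^ 2 :=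
    pow_le_pow_left₀ h3.le h2 2
  have h5 := inv_anti₀ (by positivity) h4
  refine h5.trans (le_of_eq ?_)
  field_simp

theorem circ_le (s : ℕ) (hs : 2 ≤ s) {t w X : ℝ} (ht : 1 ≤ t) (htX : t ≤ X) (hw : 1 ≤ w) :
    |circ (Gs s) t w| ≤ cG s * ((2 * X) ^ 2 * Fs 2 w) := by
  have hb : ∀ a ∈ Set.uIoc (0 : ℝ) (2 * π),
      ‖Gs s (t * w + √(t ^ 2 - 1) * √(w ^ 2 - 1) * Real.cos a)‖ ≤
        cG s * ((2 * X) ^ 2 * Fs 2 w) := by
    intro a _
    rw [Real.norm_eq_abs]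
    refine (Gs_le s hs (arg_ge ht htX hw a).1).trans ?_
    exact mul_le_mul_of_nonneg_left (Fs2_arg ht htX hw a) (cG_nonneg s)
  have h1 := intervalIntegral.norm_integral_le_of_norm_le_const hb
  rw [sub_zero, abs_of_pos Real.two_pi_pos, Real.norm_eq_abs] at h1
  unfold circ
  rw [abs_mul, abs_of_pos (inv_pos.2 Real.two_pi_pos)]
  have h2 : 0 < 2 * π := Real.two_pi_pos
  calc (2 * π)⁻¹ * |∫ a in (0 : ℝ)..(2 * π),
        Gs s (t * w + √(t ^ 2 - 1) * √(w ^ 2 - 1) * Real.cos a)|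
      ≤ (2 * π)⁻¹ * (cG s * ((2 * X) ^ 2 * Fs 2 w) * (2 * π)) := by gcongr
    _ = cG s * ((2 * X) ^ 2 * Fs 2 w) := by field_simp

theorem Av_le (s : ℕ) (hs : 2 ≤ s) {t w X : ℝ} (ht : 1 < t) (htX : t ≤ X) (hw : 1 ≤ w) :
    |Av (Gs s) t w| ≤ cG s * ((2 * X) ^ 2 * Fs 2 w) := by
  have hb : ∀ τ ∈ Set.uIoc (1 : ℝ) t, ‖circ (Gs s) τ w‖ ≤ cG s * ((2 * X) ^ 2 * Fs 2 w) := by
    intro τ hτ
    rw [uIoc_of_le ht.le] at hτ
    rw [Real.norm_eq_abs]
    exact circ_le s hs hτ.1.le (hτ.2.trans htX) hw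
  have h1 := intervalIntegral.norm_integral_le_of_norm_le_const hb
  have h2 : 0 < t - 1 := by linarith
  rw [abs_of_pos h2, Real.norm_eq_abs] at h1
  unfold Av
  rw [abs_mul, abs_of_pos (inv_pos.2 h2)]
  calc (t - 1)⁻¹ * |∫ τ in (1 : ℝ)..t, circ (Gs s) τ w|
      ≤ (t - 1)⁻¹ * (cG s * ((2 * X) ^ 2 * Fs 2 w) * (t - 1)) := by gcongr
    _ = cG s * ((2 * X) ^ 2 * Fs 2 w) := by field_simp

/-! ### Measurability -/

theorem circ_meas (F : ℝ → ℝ) (hF : Measurable F) :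
    Measurable (fun p : ℝ × ℝ => circ F p.1 p.2) := by
  unfold circ
  refine Measurable.const_mul ?_ _
  have h1 : Measurable (fun q : (ℝ × ℝ) × ℝ =>
      F (q.1.1 * q.1.2 + √(q.1.1 ^ 2 - 1) * √(q.1.2 ^ 2 - 1) * Real.cos q.2)) := by
    refine hF.comp ?_
    fun_prop
  have h2 := (h1.stronglyMeasurable.integral_prod_right'
    (ν := (volume : Measure ℝ).restrict (Ioc 0 (2 * π)))).measurable
  have h3 : (fun p : ℝ × ℝ => ∫ a in (0 : ℝ)..(2 * π),
      F (p.1 * p.2 + √(p.1 ^ 2 - 1) * √(p.2 ^ 2 - 1) * Real.cos a)) =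
      fun p : ℝ × ℝ => ∫ a in Ioc 0 (2 * π),
        F (p.1 * p.2 + √(p.1 ^ 2 - 1) * √(p.2 ^ 2 - 1) * Real.cos a) := by
    funext p
    exact intervalIntegral.integral_of_le Real.two_pi_pos.le
  rw [h3]
  exact h2

/-- a measurable version of `Av` -/
def AvM (F : ℝ → ℝ) (t w : ℝ) : ℝ :=
  (t - 1)⁻¹ * ∫ τ, (if 1 < τ ∧ τ ≤ t then circ F τ w else 0)

theorem AvM_eq (F : ℝ → ℝ) {t : ℝ} (ht : 1 < t) (w : ℝ) : AvM F t w = Av F t w := by
  unfold AvM Av
  congr 1
  rw [intervalIntegral.integral_of_le ht.le, ← integral_indicator measurableSet_Ioc]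
  refine integral_congr_ae (ae_of_all _ fun τ => ?_)
  dsimp only
  by_cases h : 1 < τ ∧ τ ≤ t
  · rw [if_pos h, indicator_of_mem (show τ ∈ Ioc 1 t from h)]
  · rw [if_neg h, indicator_of_notMem (show τ ∉ Ioc 1 t from h)]

theorem AvM_meas (F : ℝ → ℝ) (hF : Measurable F) :
    Measurable (fun p : ℝ × ℝ => AvM F p.1 p.2) := by
  unfold AvM
  refine Measurable.mul (by fun_prop) ?_
  have h1 : Measurable (fun q : (ℝ × ℝ) × ℝ =>
      if 1 < q.2 ∧ q.2 ≤ q.1.1 then circ F q.2 q.1.2 else 0) := by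
    refine Measurable.ite ?_ ?_ measurable_const
    · exact (measurableSet_lt measurable_const measurable_snd).inter
        (measurableSet_le measurable_snd (measurable_fst.comp measurable_fst))
    · exact (circ_meas F hF).comp (measurable_snd.prodMk (measurable_snd.comp measurable_fst))
  exact (h1.stronglyMeasurable.integral_prod_right' (ν := (volume : Measure ℝ))).measurable

/-! ### Integrability of the basic kernel -/

theorem int_Fs2 : Integrable (fun g : G => Fs 2 (hh g)) hm := by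
  have h1 : IntegrableOn (Fs 2) (Ici 1) volume := by
    have h2 : IntegrableOn (fun x : ℝ => x ^ (-2 : ℝ)) (Ioi 1) volume :=
      integrableOn_Ioi_rpow_of_lt (by norm_num) one_pos
    rw [integrableOn_Ici_iff_integrableOn_Ioi]
    refine Integrable.mono' h2 (Fs_meas 2).aestronglyMeasurable ?_
    rw [ae_restrict_iff' measurableSet_Ioi]
    refine ae_of_all _ fun x hx => ?_
    have hx1 : (1 : ℝ) < x := hx
    rw [Real.norm_eq_abs, abs_of_pos (Fs_pos 2 (by linarith)), Real.rpow_neg (by linarith)]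
    unfold Fs
    refine inv_anti₀ (by positivity) ?_
    rw [Real.rpow_two]
    nlinarith
  have h3 : Integrable (Fs 2) (hm.map hh) := by
    rw [map_hh]; exact h1
  exact h3.comp_measurable hh_measurable

section sys

variable {Y : Type} [MeasurableSpace Y] [MulAction G Y] {μ : Measure Y} {c : G → Y → ℤ}

theorem Phi_meas (hS : Sys μ c) (θ : ℝ) {f : Y → ℂ} (hf : Measurable f) (y : Y) :
    Measurable (fun g : G => ee (θ * c g y) * f (g • y)) := by
  have h1 : Measurable (fun g : G => c g y) := hS.c_meas.comp (measurable_id.prodMk measurable_const)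
  have h2 : Measurable (fun g : G => g • y) := hS.smul_meas.comp (measurable_id.prodMk measurable_const)
  have h3 : Measurable ee := by
    unfold ee
    exact (Complex.continuous_exp.comp (by fun_prop)).measurable
  have h4 : Measurable (fun g : G => θ * (c g y : ℝ)) :=
    (measurable_of_countable (fun n : ℤ => (n : ℝ))).comp h1 |>.const_mul θ
  exact (h3.comp h4).mul (hf.comp h2)

theorem norm_ee (t : ℝ) : ‖ee t‖ = 1 := by
  unfold ee
  have : 2 * (π : ℂ) * Complex.I * t = ((2 * π * t : ℝ) : ℂ) * Complex.I := by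
    push_cast; ring
  rw [this, Complex.norm_exp_ofReal_mul_I]

omit [MeasurableSpace Y] in
theorem Phi_norm (θ : ℝ) {f : Y → ℂ} {C : ℝ} (hf : ∀ y, ‖f y‖ ≤ C) (y : Y) (g : G) :
    ‖ee (θ * c g y) * f (g • y)‖ ≤ C := by
  rw [norm_mul, norm_ee, one_mul]
  exact hf _

end sys

/-- the swap of the integrals -/
theorem swap (s : ℕ) (hs : 2 ≤ s) {X : ℝ} (hX : 1 < X) (Φ : G → ℂ) (hΦ : Measurable Φ)
    {C : ℝ} (hC : ∀ g, ‖Φ g‖ ≤ C) :
    Integrable (fun g : G =>
      ((∫ t in (1 : ℝ)..X, (X - t) / (t + 1) * Av (Gs s) t (hh g) : ℝ) : ℂ) * Φ g) hm ∧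
    ∫ g, ((∫ t in (1 : ℝ)..X, (X - t) / (t + 1) * Av (Gs s) t (hh g) : ℝ) : ℂ) * Φ g ∂hm =
      ∫ t in (1 : ℝ)..X, (((X - t) / (t + 1) : ℝ) : ℂ) *
        ∫ g, (Av (Gs s) t (hh g) : ℂ) * Φ g ∂hm := by
  set ν : Measure ℝ := (volume : Measure ℝ).restrict (Ioc 1 X) with hν
  set H : ℝ × G → ℂ := fun p => if p.1 ∈ Ioc 1 X then
    ((((X - p.1) / (p.1 + 1) * AvM (Gs s) p.1 (hh p.2) : ℝ) : ℂ) * Φ p.2) else 0 with hH
  have hC0 : 0 ≤ C := (norm_nonneg _).trans (hC 1)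
  have hHm : Measurable H := by
    refine Measurable.ite ?_ ?_ measurable_const
    · exact measurable_fst measurableSet_Ioc
    · refine Measurable.mul ?_ (hΦ.comp measurable_snd)
      refine Complex.measurable_ofReal.comp ?_
      refine Measurable.mul (by fun_prop) ?_
      exact (AvM_meas (Gs s) (Gs_meas s)).comp
        (measurable_fst.prodMk (hh_measurable.comp measurable_snd))
  have hHb : ∀ p, ‖H p‖ ≤ (X * (cG s * (2 * X) ^ 2) * C) * Fs 2 (hh p.2) := by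
    intro p
    have hF := Fs_pos 2 (t := hh p.2) (by linarith [one_le_hh p.2])
    have hc := cG_nonneg s
    rw [hH]
    dsimp only
    split_ifs with hp
    · have h1 : |(X - p.1) / (p.1 + 1)| ≤ X := by
        have h2 : 0 ≤ X - p.1 := by linarith [hp.2]
        have h3 : 1 < p.1 := hp.1
        rw [abs_of_nonneg (by positivity), div_le_iff₀ (by linarith)]
        nlinarith
      have h4 := Av_le s hs hp.1 hp.2 (one_le_hh p.2)
      rw [norm_mul, Complex.norm_real, Real.norm_eq_abs, abs_mul, AvM_eq _ hp.1]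
      calc |(X - p.1) / (p.1 + 1)| * |Av (Gs s) p.1 (hh p.2)| * ‖Φ p.2‖
          ≤ X * (cG s * ((2 * X) ^ 2 * Fs 2 (hh p.2))) * C := by
            gcongr
            exact hC p.2
        _ = (X * (cG s * (2 * X) ^ 2) * C) * Fs 2 (hh p.2) := by ring
    · rw [norm_zero]
      positivity
  have hHi : Integrable H (ν.prod hm) := by
    have h1 : Integrable (fun _ : ℝ => (X * (cG s * (2 * X) ^ 2) * C)) ν := by
      rw [hν]
      exact integrableOn_const (by rw [Real.volume_Ioc]; exact ENNReal.ofReal_ne_top)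
    have h2 := h1.mul_prod int_Fs2
    exact h2.mono' hHm.aestronglyMeasurable (ae_of_all _ hHb)
  have e1 : ∀ g : G, ((∫ t in (1 : ℝ)..X, (X - t) / (t + 1) * Av (Gs s) t (hh g) : ℝ) : ℂ) * Φ g =
      ∫ t, H (t, g) ∂ν := by
    intro g
    rw [intervalIntegral.integral_of_le hX.le, ← integral_complex_ofReal, ← integral_mul_const]
    refine setIntegral_congr_fun measurableSet_Ioc (fun t ht => ?_)
    rw [hH]
    dsimp only
    rw [if_pos ht, AvM_eq _ ht.1]
  have e2 : ∀ t ∈ Ioc 1 X, ∫ g, H (t, g) ∂hm = (((X - t) / (t + 1) : ℝ) : ℂ) *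
        ∫ g, (Av (Gs s) t (hh g) : ℂ) * Φ g ∂hm := by
    intro t ht
    rw [← integral_const_mul]
    refine integral_congr_ae (ae_of_all _ fun g => ?_)
    rw [hH]
    dsimp only
    rw [if_pos ht, AvM_eq _ ht.1]
    push_cast
    ring
  constructor
  · have h1 := hHi.integral_prod_right
    refine h1.congr (ae_of_all _ fun g => ?_)
    exact (e1 g).symm
  · rw [integral_congr_ae (ae_of_all _ e1)]
    rw [← integral_integral_swap (f := fun t g => H (t, g)) hHi]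
    rw [intervalIntegral.integral_of_le hX.le]
    exact setIntegral_congr_fun measurableSet_Ioc e2

theorem main (h1 : ConvStmt) (h2 : MeanStmt) : PairFnStmt := by
  intro Y _ _ μ c hS θ f hf s hs X hX y
  obtain ⟨hfm, C, hC⟩ := hf
  have hf' : BM f := ⟨hfm, C, hC⟩
  set Φ : G → ℂ := fun g => ee (θ * c g y) * f (g • y) with hΦ
  have hΦm : Measurable Φ := Phi_meas hS θ hfm y
  have hΦn : ∀ g, ‖Φ g‖ ≤ C := Phi_norm θ hC y
  obtain ⟨i2, e2⟩ := swap s hs hX Φ hΦm hΦn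
  have i1 : Integrable (fun g : G => (Fs s (hh g) : ℂ) * Φ g) hm := by
    have h3 := int_Fs2.mul_const C
    refine h3.mono' ?_ (ae_of_all _ fun g => ?_)
    · exact ((Complex.measurable_ofReal.comp
        ((Fs_meas s).comp hh_measurable)).mul hΦm).aestronglyMeasurable
    · have hg : 0 ≤ hh g := by linarith [one_le_hh g]
      rw [norm_mul, Complex.norm_real, Real.norm_eq_abs, abs_of_pos (Fs_pos s hg)]
      exact mul_le_mul (Fs_le s hs hg) (hΦn g) (norm_nonneg _) (Fs_pos 2 hg).le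
  rw [h1 Y μ c hS θ f hf' (Fs s) (KF_Fs s hs) X hX y]
  have e3 : op c θ (fun w => Av (Fs s) X w) f y =
      ∫ g, ((Fs s (hh g) : ℂ) * Φ g - ((X - 1)⁻¹ : ℂ) *
        (((∫ t in (1 : ℝ)..X, (X - t) / (t + 1) * Av (Gs s) t (hh g) : ℝ) : ℂ) * Φ g)) ∂hm := by
    unfold op
    refine integral_congr_ae (ae_of_all _ fun g => ?_)
    dsimp only
    rw [h2 s hs (hh g) (one_le_hh g) X hX]
    push_cast
    ring
  rw [e3, integral_sub i1 (i2.const_mul _), integral_const_mul, e2]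
  have e4 : ∀ t ∈ Ioc 1 X, (((X - t) / (t + 1) : ℝ) : ℂ) *
        ∫ g, (Av (Gs s) t (hh g) : ℂ) * Φ g ∂hm = (((X - t) / (t + 1) : ℝ) : ℂ) *
      tw c θ (bm t) (op c θ (Gs s) f) y := by
    intro t ht
    rw [h1 Y μ c hS θ f hf' (Gs s) (KF_Gs s hs) t ht.1 y]
    rfl
  have e5 : ∫ t in (1 : ℝ)..X, (((X - t) / (t + 1) : ℝ) : ℂ) *
        ∫ g, (Av (Gs s) t (hh g) : ℂ) * Φ g ∂hm =
      ∫ t in (1 : ℝ)..X, (((X - t) / (t + 1) : ℝ) : ℂ) *
        tw c θ (bm t) (op c θ (Gs s) f) y := by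
    rw [intervalIntegral.integral_of_le hX.le, intervalIntegral.integral_of_le hX.le]
    exact setIntegral_congr_fun measurableSet_Ioc e4
  rw [e5]
  rfl

end

end Pool.Agent.W61.BA.PF
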